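import Pool.Agent.H95.Rt2

set_option autoImplicit false

/-- There is a complete metric space that is absolutely homogeneous (every isometry between
two subsets extends to a bijective isometry of the whole space), connected and locally
connected, but not locally compact. -/
theorem Pool.Agent.Results.MP_079cdc_gt.Yes.result :
    ∃ (X : Type) (_ : MetricSpace X), CompleteSpace X ∧
      (∀ (A B : Set X) (f : A ≃ᵢ B), ∃ g : X ≃ᵢ X, ∀ a : A, g a = f a) ∧ ConnectedSpace X ∧
      LocallyConnectedSpace X ∧ ¬ LocallyCompactSpace X :=
  Pool.Agent.H95.Rt2.main
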